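import Mathlib

/-!
# The powerful part of `∏ (f + s)` for a polynomial `f`
-/

set_option autoImplicit false
set_option linter.unusedSectionVars false

namespace Pool.Agent.PMQ

open Polynomial UniqueFactorizationMonoid EuclideanDomain

variable {K : Type} [Field K] [DecidableEq K]

/-- The powerful part of a nonzero polynomial `g`: the product of the monic irreducible factors `p` of `g` with
multiplicity, restricted to those `p` whose multiplicity is at least two. -/
noncomputable def Q2 (g : K[X]) : K[X] :=
  ((normalizedFactors g).filter (fun p => 2 ≤ (normalizedFactors g).count p)).prod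

/-- The product of the `f + s`, `s ∈ S`. -/
noncomputable def P (S : Finset K) (f : K[X]) : K[X] := ∏ s ∈ S, (f + C s)

theorem zero_notMem (g : K[X]) : (0 : K[X]) ∉ normalizedFactors g := zero_notMem_normalizedFactors g

theorem natDegree_Q2 (g : K[X]) : (Q2 g).natDegree =
    (((normalizedFactors g).filter (fun p => 2 ≤ (normalizedFactors g).count p)).map natDegree).sum := by
  unfold Q2
  apply natDegree_multiset_prod
  intro h
  exact zero_notMem g (Multiset.mem_filter.1 h).1

theorem natDegree_eq_sum {g : K[X]} (hg : g ≠ 0) :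
    g.natDegree = ∑ p ∈ (normalizedFactors g).toFinset, (normalizedFactors g).count p * p.natDegree := by
  have h1 : g.natDegree = (normalizedFactors g).prod.natDegree :=
    natDegree_eq_of_degree_eq (degree_eq_degree_of_associated (prod_normalizedFactors hg).symm)
  rw [h1, natDegree_multiset_prod _ (zero_notMem g), Finset.sum_multiset_map_count]
  simp

theorem natDegree_radical_eq_sum (g : K[X]) :
    (radical g).natDegree = ∑ p ∈ (normalizedFactors g).toFinset, p.natDegree := by
  unfold radical
  have h : primeFactors g = (normalizedFactors g).toFinset := toFinset_normalizedFactors.symm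
  rw [h, natDegree_prod]
  · rfl
  · intro p hp
    rw [Multiset.mem_toFinset] at hp
    exact fun h0 => zero_notMem g (h0 ▸ hp)

/-- The degree of the powerful part is at most twice the degree of `g / rad g`. -/
theorem natDegree_Q2_le {g : K[X]} (hg : g ≠ 0) :
    (Q2 g).natDegree ≤ 2 * (divRadical g).natDegree := by
  have hd : g.natDegree = (radical g).natDegree + (divRadical g).natDegree := by
    conv_lhs => rw [← radical_mul_divRadical (a := g)]
    rw [natDegree_mul radical_ne_zero (divRadical_ne_zero hg)]
  have h1 := natDegree_eq_sum hg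
  have h2 := natDegree_radical_eq_sum g
  set s := normalizedFactors g with hs
  set t := s.filter (fun p => 2 ≤ s.count p) with ht
  have h3 : (Q2 g).natDegree ≤ ∑ p ∈ s.toFinset, t.count p * p.natDegree := by
    rw [natDegree_Q2 g, ← hs, ← ht, Finset.sum_multiset_map_count]
    simp only [smul_eq_mul]
    apply Finset.sum_le_sum_of_subset
    intro p hp
    rw [Multiset.mem_toFinset] at hp ⊢
    exact (Multiset.mem_filter.1 hp).1
  have h4 : ∑ p ∈ s.toFinset, t.count p * p.natDegree + 2 * ∑ p ∈ s.toFinset, p.natDegree ≤
      2 * ∑ p ∈ s.toFinset, s.count p * p.natDegree := by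
    rw [Finset.mul_sum, Finset.mul_sum, ← Finset.sum_add_distrib]
    apply Finset.sum_le_sum
    intro p hp
    rw [Multiset.mem_toFinset] at hp
    have hc : 1 ≤ s.count p := Multiset.one_le_count_iff_mem.2 hp
    have hc2 : t.count p + 2 ≤ 2 * s.count p := by
      rw [ht, Multiset.count_filter]
      split_ifs with h
      · omega
      · omega
    nlinarith [Nat.mul_le_mul_right p.natDegree hc2]
  omega

/-- A square dividing `g` contributes to the powerful part. -/
theorem le_natDegree_Q2 {g h : K[X]} (hg : g ≠ 0) (hh : h ^ 2 ∣ g) :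
    2 * h.natDegree ≤ (Q2 g).natDegree := by
  have hh0 : h ^ 2 ≠ 0 := ne_zero_of_dvd_ne_zero hg hh
  have h0 : h ≠ 0 := fun h1 => hh0 (by rw [h1]; ring)
  have hle : normalizedFactors (h ^ 2) ≤ normalizedFactors g :=
    (dvd_iff_normalizedFactors_le_normalizedFactors hh0 hg).1 hh
  have hf : normalizedFactors (h ^ 2) ≤
      (normalizedFactors g).filter (fun p => 2 ≤ (normalizedFactors g).count p) := by
    rw [Multiset.le_filter]
    refine ⟨hle, fun p hp => ?_⟩
    have h1 : (normalizedFactors (h ^ 2)).count p ≤ (normalizedFactors g).count p :=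
      Multiset.count_le_of_le p hle
    rw [normalizedFactors_pow, Multiset.count_nsmul] at h1
    have h2 : p ∈ normalizedFactors h := by
      rw [normalizedFactors_pow] at hp
      exact (Multiset.mem_nsmul.1 hp).2
    have h3 : 1 ≤ (normalizedFactors h).count p := Multiset.one_le_count_iff_mem.2 h2
    omega
  have h5 : (h ^ 2).natDegree = ((normalizedFactors (h ^ 2)).map natDegree).sum := by
    have h1 : (h ^ 2).natDegree = (normalizedFactors (h ^ 2)).prod.natDegree :=
      natDegree_eq_of_degree_eq (degree_eq_degree_of_associated (prod_normalizedFactors hh0).symm)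
    rw [h1, natDegree_multiset_prod _ (zero_notMem _)]
  rw [natDegree_pow] at h5
  rw [h5, natDegree_Q2 g]
  obtain ⟨u, hu⟩ := Multiset.le_iff_exists_add.1 hf
  rw [hu, Multiset.map_add, Multiset.sum_add]
  omega

theorem coprime_add {f : K[X]} {a b : K} (hab : a ≠ b) : IsCoprime (f + C a) (f + C b) := by
  have h : a - b ≠ 0 := sub_ne_zero.2 hab
  refine ⟨C (a - b)⁻¹, -C (a - b)⁻¹, ?_⟩
  have : C (a - b)⁻¹ * (f + C a) + -C (a - b)⁻¹ * (f + C b) = C (a - b)⁻¹ * C (a - b) := by
    rw [C_sub]
    ring
  rw [this, ← C_mul, inv_mul_cancel₀ h, C_1]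

theorem divRadical_P_dvd (f : K[X]) (S : Finset K) : divRadical (P S f) ∣ derivative f := by
  classical
  induction S using Finset.induction_on with
  | empty =>
    have : IsUnit (divRadical (P (∅ : Finset K) f)) := by
      apply divRadical_isUnit
      simp [P]
    exact this.dvd
  | insert a S ha ih =>
    have hP : P (insert a S) f = (f + C a) * P S f := by
      unfold P
      rw [Finset.prod_insert ha]
    have hcop : IsCoprime (f + C a) (P S f) := by
      unfold P
      apply IsCoprime.prod_right
      intro b hb
      exact coprime_add (fun h => ha (h ▸ hb))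
    rw [hP, divRadical_mul hcop]
    apply IsCoprime.mul_dvd hcop.divRadical _ ih
    have := divRadical_dvd_derivative (f + C a)
    rwa [derivative_add, derivative_C, add_zero] at this

theorem P_ne {f : K[X]} (hf : derivative f ≠ 0) (S : Finset K) : P S f ≠ 0 := by
  unfold P
  rw [Finset.prod_ne_zero_iff]
  intro s _ h
  apply hf
  have := congrArg derivative h
  rwa [derivative_add, derivative_C, add_zero, derivative_zero] at this

/-- The upper bound. -/
theorem upper {f : K[X]} (hf : derivative f ≠ 0) (S : Finset K) :
    (Q2 (P S f)).natDegree ≤ 2 * (derivative f).natDegree :=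
  (natDegree_Q2_le (P_ne hf S)).trans
    (Nat.mul_le_mul_left 2 (natDegree_le_of_dvd (divRadical_P_dvd f S) hf))

/-- The Pell equation of the Chebyshev polynomials. -/
theorem pell (n : ℕ) : (Chebyshev.T K (n + 1)) ^ 2 + (1 - X ^ 2) * (Chebyshev.U K n) ^ 2 = 1 := by
  induction n with
  | zero =>
    simp
  | succ n ih =>
    have h1 := Chebyshev.T_eq_X_mul_T_sub_pol_U K n
    have h2 := Chebyshev.U_eq_X_mul_U_add_T K n
    push_cast
    rw [show ((n : ℤ) + 1 + 1) = n + 2 by ring, h1, h2]
    linear_combination ih

/-- The extremal polynomials. -/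
theorem lower {d : ℕ} (h2 : (2 : K) ≠ 0) (hd : (d : K) ≠ 0) {S : Finset K} (h0 : (0 : K) ∈ S)
    (h1 : (1 : K) ∈ S) : ∃ f : K[X], f.natDegree = d ∧ derivative f ≠ 0 ∧
      (Q2 (P S f)).natDegree = 2 * (d - 1) := by
  have : NeZero (2 : K) := ⟨h2⟩
  obtain ⟨n, rfl⟩ : ∃ n, d = n + 1 := by
    rcases d with _ | n
    · simp at hd
    · exact ⟨n, rfl⟩
  set f : K[X] := C (2⁻¹) * (Chebyshev.T K (n + 1) - 1) with hf
  have hTd : (Chebyshev.T K (n + 1)).natDegree = n + 1 := by
    rw [Chebyshev.natDegree_T]
    omega
  have hdeg : f.natDegree = n + 1 := by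
    rw [hf, natDegree_C_mul (inv_ne_zero h2), ← C_1, natDegree_sub_C, hTd]
  have hder : derivative f ≠ 0 := by
    rw [hf, derivative_C_mul, derivative_sub, derivative_one, sub_zero, Chebyshev.T_derivative_eq_U]
    apply mul_ne_zero
    · rw [Ne, C_eq_zero]
      exact inv_ne_zero h2
    · apply mul_ne_zero
      · have h3 : (((n : ℤ) + 1 : ℤ) : K[X]) = C ((n + 1 : ℕ) : K) := by
          rw [map_natCast]
          push_cast
          ring
        rw [h3, Ne, C_eq_zero]
        exact hd
      · apply Chebyshev.U_ne_zero
        omega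
  refine ⟨f, hdeg, hder, le_antisymm ?_ ?_⟩
  · have e1 := upper hder S
    have e2 := natDegree_derivative_le f
    omega
  · have hdvd : (Chebyshev.U K n) ^ 2 ∣ P S f := by
      have e1 : f * (f + 1) ∣ P S f := by
        have e2 : ({0, 1} : Finset K) ⊆ S := by
          intro x hx
          rw [Finset.mem_insert, Finset.mem_singleton] at hx
          rcases hx with rfl | rfl
          · exact h0
          · exact h1
        have e3 := Finset.prod_dvd_prod_of_subset _ _ (fun s => f + C s) e2
        rw [Finset.prod_pair zero_ne_one, C_0, C_1, add_zero] at e3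
        exact e3
      refine dvd_trans ?_ e1
      refine ⟨C (2⁻¹) * C (2⁻¹) * (X ^ 2 - 1), ?_⟩
      have e4 := pell (K := K) n
      have e5 : C (2⁻¹ : K) * 2 = 1 := by
        rw [show (2 : K[X]) = C 2 from (map_ofNat C 2).symm, ← C_mul, inv_mul_cancel₀ h2, C_1]
      have e6 : f + 1 = C (2⁻¹) * (Chebyshev.T K (n + 1) + 1) := by
        rw [hf]
        linear_combination -e5
      rw [e6, hf]
      linear_combination C (2⁻¹ : K) * C (2⁻¹ : K) * e4
    have e7 := le_natDegree_Q2 (P_ne hder S) hdvd
    rw [Chebyshev.natDegree_U_natCast] at e7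
    omega

end Pool.Agent.PMQ
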